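import Pool.Agent.Y388.TO.Recur

/-!
# Colourings with dilations that act on the colours

`S` is a set of natural numbers closed under multiplication. `Acts c S s f`: multiplication by
`s ∈ S` acts on the colours of the positive elements of `S` by the map `f`.
-/

set_option autoImplicit false

namespace Pool.Agent.Y388.TO

open Combinatorics Hindman Filter Pool.Agent.W842.SP

attribute [local instance] Ultrafilter.add Ultrafilter.addSemigroup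

variable {K : Type*}

/-- Multiplication by `s ∈ M` maps the positive elements of `S` to elements of `S` and acts on their
colours by `f`. -/
def Acts (c : ℕ → K) (S M : Set ℕ) (s : ℕ) (f : K → K) : Prop :=
  0 < s ∧ s ∈ M ∧ ∀ n ∈ S, 0 < n → s * n ∈ S ∧ c (s * n) = f (c n)

/-- Some multiplication that acts on the colours maps `k` to `l`. -/
def Reach (c : ℕ → K) (S M : Set ℕ) (k l : K) : Prop := ∃ s f, Acts c S M s f ∧ f k = l

/-- The colours can be mapped to each other. -/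
def Linked (c : ℕ → K) (S M : Set ℕ) (k l : K) : Prop := Reach c S M k l ∧ Reach c S M l k

variable {c : ℕ → K} {S M : Set ℕ}

theorem Reach.refl (h1 : 1 ∈ M) (k : K) : Reach c S M k k :=
  ⟨1, id, ⟨one_pos, h1, fun n hn _ => by rw [one_mul]; exact ⟨hn, rfl⟩⟩, rfl⟩

theorem Reach.trans (hM : ∀ x ∈ M, ∀ y ∈ M, x * y ∈ M) {k l m : K} (h : Reach c S M k l)
    (h' : Reach c S M l m) : Reach c S M k m := by
  obtain ⟨s, f, ⟨h1, h2, h3⟩, h4⟩ := h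
  obtain ⟨s', f', ⟨h1', h2', h3'⟩, h4'⟩ := h'
  refine ⟨s' * s, f' ∘ f, ⟨Nat.mul_pos h1' h1, hM _ h2' _ h2, ?_⟩, ?_⟩
  · intro n hn hn0
    rw [mul_assoc, (h3' _ (h3 n hn hn0).1 (Nat.mul_pos h1 hn0)).2, (h3 n hn hn0).2]
    exact ⟨(h3' _ (h3 n hn hn0).1 (Nat.mul_pos h1 hn0)).1, rfl⟩
  · rw [Function.comp_apply, h4, h4']

theorem Linked.refl (h1 : 1 ∈ M) (k : K) : Linked c S M k k := ⟨Reach.refl h1 k, Reach.refl h1 k⟩

theorem Acts.comm {s s' : ℕ} {f f' : K → K} (h : Acts c S M s f) (h' : Acts c S M s' f') {n : ℕ}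
    (hn : n ∈ S) (hn0 : 0 < n) : f (f' (c n)) = f' (f (c n)) := by
  rw [← (h.2.2 n hn hn0).2, ← (h'.2.2 n hn hn0).2,
    ← (h.2.2 _ (h'.2.2 n hn hn0).1 (Nat.mul_pos h'.1 hn0)).2,
    ← (h'.2.2 _ (h.2.2 n hn hn0).1 (Nat.mul_pos h.1 hn0)).2]
  congr 1
  ring

/-- If `f` maps one colour linked to `a` to a colour linked to `a`, then it does so with every
colour linked to `a` that occurs. -/
theorem linked_map (hM : ∀ x ∈ M, ∀ y ∈ M, x * y ∈ M) {a l : K} {s : ℕ} {f : K → K}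
    (h : Acts c S M s f) {n : ℕ} (hn : n ∈ S) (hn0 : 0 < n) (ha : Linked c S M a (c n))
    (hl : Linked c S M a l) (hfl : Linked c S M a (f l)) : Linked c S M a (f (c n)) := by
  obtain ⟨s', g, hg, hgl⟩ := ha.2.trans hM hl.1
  refine ⟨ha.1.trans hM ⟨s, f, h, rfl⟩, ?_⟩
  have h1 : g (f (c n)) = f l := by rw [hg.comm h hn hn0, hgl]
  exact Reach.trans hM ⟨s', g, hg, h1⟩ hfl.2

/-- the numbers with a colour linked to `a` -/
def Cls (c : ℕ → K) (S M : Set ℕ) (a : K) : Set ℕ := {n | 0 < n ∧ n ∈ S ∧ Linked c S M a (c n)}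

/-- the other positive elements of `S` -/
def Oth (S A B : Set ℕ) : Set ℕ := {n | 0 < n ∧ n ∈ S ∧ n ∉ A ∧ n ∉ B}

theorem Oth_symm (S A B : Set ℕ) : Oth S A B = Oth S B A := by
  ext n
  simp only [Oth, Set.mem_ofPred_eq]
  tauto

/-- no monochromatic pattern above `N` inside `S` with a colour in `T` -/
def NoPatC (c : ℕ → K) (S : Set ℕ) (T : Set K) (N : ℕ) : Prop :=
  ∀ x y, N < x → N < y → x ≠ y → x ∈ S → y ∈ S → x + y ∈ S → c x ∈ T → c y = c x →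
    c (x + y) = c x → c (x * y) ≠ c x

/-- `Λ` contains enough multipliers -/
def Enough (c : ℕ → K) (S M : Set ℕ) (Λ : Finset ℕ) : Prop :=
  (∀ s ∈ Λ, 0 < s) ∧ ∀ k l, Reach c S M k l → ∃ s ∈ Λ, ∃ f, Acts c S M s f ∧ f k = l

theorem exists_enough [Finite K] (c : ℕ → K) (S M : Set ℕ) : ∃ Λ : Finset ℕ, Enough c S M Λ := by
  classical
  have := Fintype.ofFinite K
  have h : ∀ p : K × K, ∃ s : ℕ, 0 < s ∧ (Reach c S M p.1 p.2 → ∃ f, Acts c S M s f ∧ f p.1 = p.2) := by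
    rintro ⟨k, l⟩
    by_cases hr : Reach c S M k l
    · obtain ⟨s, f, h1, h2⟩ := hr
      exact ⟨s, h1.1, fun _ => ⟨f, h1, h2⟩⟩
    · exact ⟨1, one_pos, fun h => absurd h hr⟩
  choose σ hσ1 hσ2 using h
  refine ⟨Finset.univ.image σ, ?_, ?_⟩
  · intro s hs
    obtain ⟨p, _, rfl⟩ := Finset.mem_image.1 hs
    exact hσ1 p
  · intro k l hr
    obtain ⟨f, h1, h2⟩ := hσ2 (k, l) hr
    exact ⟨σ (k, l), Finset.mem_image_of_mem _ (Finset.mem_univ _), f, h1, h2⟩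

/-- The elements `a` of `Q` with `a + (s₁ / s₂) t ∈ Q` for all `s₁, s₂ ∈ Λ`. -/
def Ret (Λ : Finset ℕ) (Q : Set ℕ) (t : ℕ) : Set ℕ :=
  {a | a ∈ Q ∧ ∀ s₁ ∈ Λ, ∀ s₂ ∈ Λ, ∃ e, s₂ * e = s₁ * t ∧ a + e ∈ Q}

theorem retE {Λ : Finset ℕ} (hΛ : ∀ s ∈ Λ, 0 < s) {Q : Set ℕ} (hQ : PS Q) {p : Ultrafilter ℕ}
    (hp : p + p = p) (α : ℕ) {v : ℕ} (hv : 0 < v) (Rs : Finset ℕ) :
    ∀ᶠ w in (p : Filter ℕ), PS {a | a ∈ Q ∧ ∀ r ∈ Rs, a ∈ Ret Λ Q (r * (α * (w / v)))} := by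
  classical
  set D : ℕ := ∏ s ∈ Λ, s with hD
  have hD0 : 0 < D := Finset.prod_pos hΛ
  have hvD : 0 < v * D := Nat.mul_pos hv hD0
  have h1 := recurK hQ _ (idem_dil (idem_div hp hvD) α)
    ((Rs ×ˢ Λ ×ˢ Λ).image (fun x => x.1 * x.2.1 * (D / x.2.2)))
  have h2 : ∀ᶠ w in (p : Filter ℕ), PS {a | a ∈ Q ∧
      ∀ x ∈ (Rs ×ˢ Λ ×ˢ Λ).image (fun x => x.1 * x.2.1 * (D / x.2.2)),
        a + x * (α * (w / (v * D))) ∈ Q} := h1
  filter_upwards [h2, idem_dvd hp hvD] with w hw1 hw2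
  refine hw1.mono ?_
  rintro a ⟨ha, ha'⟩
  refine ⟨ha, fun r hr => ⟨ha, fun s₁ hs₁ s₂ hs₂ => ?_⟩⟩
  obtain ⟨u, rfl⟩ := hw2
  have e1 : v * D * u / (v * D) = u := Nat.mul_div_cancel_left u hvD
  have e2 : v * D * u / v = D * u := by
    rw [mul_assoc]
    exact Nat.mul_div_cancel_left _ hv
  rw [e1] at ha'
  rw [e2]
  obtain ⟨d, hd⟩ : s₂ ∣ D := Finset.dvd_prod_of_mem (fun s => s) hs₂
  have e3 : D / s₂ = d := by rw [hd]; exact Nat.mul_div_cancel_left _ (hΛ s₂ hs₂)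
  refine ⟨r * s₁ * (D / s₂) * (α * u), ?_, ?_⟩
  · rw [e3, hd]; ring
  · apply ha'
    refine Finset.mem_image.2 ⟨(r, s₁, s₂), ?_, rfl⟩
    simp only [Finset.mem_product]
    exact ⟨hr, hs₁, hs₂⟩

/-- the first lemma on products -/
theorem prod_one {N : ℕ} (hM : ∀ x ∈ M, ∀ y ∈ M, x * y ∈ M) {T : Set K} (hNo : NoPatC c S T N)
    {a : K} (hTa : ∀ k, Linked c S M a k → k ∈ T) {t y : ℕ}
    (ht : t ∈ Cls c S M a) (hy : y ∈ Cls c S M a) (hts : t + y ∈ S) (h1 : c y = c t)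
    (h2 : c (t + y) = c t) (htN : N < t) (hyN : N < y) (hty : t ≠ y) : t * y ∉ Cls c S M a := by
  rintro ⟨_, h3, h4⟩
  obtain ⟨ht0, htS, htL⟩ := ht
  obtain ⟨hy0, hyS, hyL⟩ := hy
  obtain ⟨s, f, hA, hf⟩ := h4.2.trans hM htL.1
  have hA' := hA
  obtain ⟨hs0, hsM, hs⟩ := hA'
  have e1 : c (s * t) = f (c t) := (hs t htS ht0).2
  refine hNo (s * t) (s * y) ?_ ?_ ?_ (hs t htS ht0).1 (hs y hyS hy0).1 ?_ ?_ ?_ ?_ ?_
  · exact lt_of_lt_of_le htN (Nat.le_mul_of_pos_left t hs0)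
  · exact lt_of_lt_of_le hyN (Nat.le_mul_of_pos_left y hs0)
  · intro h
    exact hty (Nat.eq_of_mul_eq_mul_left hs0 h)
  · rw [← Nat.mul_add]
    exact (hs _ hts (by omega)).1
  · rw [e1]
    exact hTa _ (linked_map hM hA htS ht0 htL h4 (by rw [hf]; exact htL))
  · rw [e1, (hs y hyS hy0).2, h1]
  · rw [← Nat.mul_add, e1, (hs _ hts (by omega)).2, h2]
  · have e : s * t * (s * y) = s * (s * (t * y)) := by ring
    rw [e, (hs _ (hs _ h3 (by positivity)).1 (by positivity)).2, (hs _ h3 (by positivity)).2, hf, e1]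

/-- the second lemma on products -/
theorem prod_two {N : ℕ} (hM : ∀ x ∈ M, ∀ y ∈ M, x * y ∈ M) {T : Set K} (hNo : NoPatC c S T N)
    {Λ : Finset ℕ} (hΛ : Enough c S M Λ) {a l : K} (hTa : ∀ k, Linked c S M a k → k ∈ T)
    {m t y : ℕ} {Q : Set ℕ}
    (hQ : ∀ b ∈ Q, m * b ∈ S ∧ c (m * b) = l) (hy : y ∈ Ret Λ Q t)
    (hmt : m * t ∈ Cls c S M a) (hmy : m * y ∈ Cls c S M a) (h1 : N < m * t) (h2 : N < m * y)
    (hbig : (∏ s ∈ Λ, s) * t < y) : (m * t) * (m * y) ∉ Cls c S M a := by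
  rintro ⟨_, h3, h4⟩
  obtain ⟨ht0, htS, htL⟩ := hmt
  obtain ⟨hy0, hyS, hyL⟩ := hmy
  have hm0 : 0 < m := by
    rcases Nat.eq_zero_or_pos m with h | h
    · rw [h, zero_mul] at hy0; omega
    · exact h
  obtain ⟨s₁, hs₁Λ, f₁, hA₁, hf₁⟩ := hΛ.2 _ _ (h4.2.trans hM hyL.1)
  have hA₁' := hA₁
  obtain ⟨hs₁0, hs₁M, hs₁⟩ := hA₁'
  obtain ⟨s₂, hs₂Λ, f₂, ⟨hs₂0, hs₂M, hs₂⟩, hf₂⟩ := hΛ.2 _ _ (h4.2.trans hM htL.1)
  obtain ⟨hyQ, hy'⟩ := hy
  obtain ⟨e, he, heQ⟩ := hy' s₁ hs₁Λ s₂ hs₂Λ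
  have c1 : c (s₁ * (m * t)) = f₁ (c (m * t)) := (hs₁ _ htS ht0).2
  have c2 : c (s₂ * (m * y)) = f₂ (c (m * y)) := (hs₂ _ hyS hy0).2
  have hpos : 0 < m * t * (m * y) := Nat.mul_pos ht0 hy0
  have c3 : c (s₁ * (s₂ * (m * t * (m * y)))) = f₁ (c (m * t)) := by
    rw [(hs₁ _ (hs₂ _ h3 hpos).1 (by positivity)).2, (hs₂ _ h3 hpos).2, hf₂]
  have c4 : c (s₁ * (s₂ * (m * t * (m * y)))) = f₂ (c (m * y)) := by
    have e1 : s₁ * (s₂ * (m * t * (m * y))) = s₂ * (s₁ * (m * t * (m * y))) := by ring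
    rw [e1, (hs₂ _ (hs₁ _ h3 hpos).1 (by positivity)).2, (hs₁ _ h3 hpos).2, hf₁]
  have hsum : s₁ * (m * t) + s₂ * (m * y) = s₂ * (m * (y + e)) := by
    have : s₁ * (m * t) = m * (s₂ * e) := by rw [he]; ring
    rw [this]; ring
  have hye : m * (y + e) ∈ S ∧ c (m * (y + e)) = l := hQ _ heQ
  have hye0 : 0 < m * (y + e) := by
    have : m * y ≤ m * (y + e) := Nat.mul_le_mul_left m (by omega)
    omega
  have hs₁D : s₁ ≤ ∏ s ∈ Λ, s :=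
    Nat.le_of_dvd (Finset.prod_pos hΛ.1) (Finset.dvd_prod_of_mem (fun s => s) hs₁Λ)
  refine hNo (s₁ * (m * t)) (s₂ * (m * y)) ?_ ?_ ?_ (hs₁ _ htS ht0).1 (hs₂ _ hyS hy0).1
    ?_ ?_ ?_ ?_ ?_
  · exact lt_of_lt_of_le h1 (Nat.le_mul_of_pos_left _ hs₁0)
  · exact lt_of_lt_of_le h2 (Nat.le_mul_of_pos_left _ hs₂0)
  · apply ne_of_lt
    calc s₁ * (m * t) ≤ (∏ s ∈ Λ, s) * (m * t) := Nat.mul_le_mul_right _ hs₁D
      _ = m * ((∏ s ∈ Λ, s) * t) := by ring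
      _ < m * y := Nat.mul_lt_mul_of_pos_left hbig hm0
      _ ≤ s₂ * (m * y) := Nat.le_mul_of_pos_left _ hs₂0
  · rw [hsum]
    exact (hs₂ _ hye.1 hye0).1
  · rw [c1]
    exact hTa _ (linked_map hM hA₁ htS ht0 htL h4 (by rw [hf₁]; exact hyL))
  · rw [c1, c2, ← c3, c4]
  · rw [hsum, (hs₂ _ hye.1 hye0).2, hye.2, c1, ← c3, c4, (hQ y hyQ).2]
  · have e1 : s₁ * (m * t) * (s₂ * (m * y)) = s₁ * (s₂ * (m * t * (m * y))) := by ring
    rw [e1, c3, c1]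

theorem PS_large {P : Set ℕ} (hP : PS P) (L : ℕ) : PS {a | a ∈ P ∧ L < a} := by
  have h : PS ({a | a ∈ P ∧ L < a} ∪ {a | a ≤ L}) := by
    refine hP.mono ?_
    intro a ha
    by_cases h : L < a
    · exact Or.inl ⟨ha, h⟩
    · exact Or.inr (not_lt.1 h)
  rcases h.union with h | h
  · exact h
  · exfalso
    obtain ⟨a, ha, ha'⟩ := h.exists_gt L
    exact absurd ha' (not_le.2 ha)

theorem PS_homog [Finite K] {P : Set ℕ} (hP : PS P) (g : ℕ → K) :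
    ∃ l, PS {a | a ∈ P ∧ g a = l} := by
  classical
  have := Fintype.ofFinite K
  have h : PS (⋃ l ∈ (Finset.univ : Finset K), {a | a ∈ P ∧ g a = l}) := by
    refine hP.mono ?_
    intro a ha
    rw [Set.mem_iUnion₂]
    exact ⟨g a, Finset.mem_univ _, ha, rfl⟩
  obtain ⟨l, _, hl⟩ := h.biUnion
  exact ⟨l, hl⟩

end Pool.Agent.Y388.TO
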