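import Pool.Agent.Y388.TO.Defs

/-!
# Monochromatic `{x, y, x + y, x * y}` for colourings with two orbits under dilations
-/

set_option autoImplicit false

namespace Pool.Agent.Y388.TO

open Combinatorics Hindman Filter Pool.Agent.W842.SP

attribute [local instance] Ultrafilter.add Ultrafilter.addSemigroup

variable {K : Type*} {c : ℕ → K} {S M : Set ℕ} {T : Set K}

/-- a free homogeneous subset of `X` -/
def FH (c : ℕ → K) (R X Q : Set ℕ) : Prop := Free R Q ∧ Q ⊆ X ∧ ∃ l, ∀ a ∈ Q, c a = l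

theorem exists_FH [Finite K] {R X P : Set ℕ} (hP : Free R P) (h : P ⊆ X) : ∃ Q, FH c R X Q := by
  obtain ⟨l, hl⟩ := PS_homog hP.1 c
  exact ⟨_, hP.sub hl (fun a ha => ha.1), fun a ha => h ha.1, l, fun a ha => ha.2⟩

/-- From a free homogeneous subset of `A` and a multiplier in `A` to a free set inside `B`,
with control of the products. -/
theorem step_core [Finite K] {N : ℕ} (hmul : ∀ x ∈ S, ∀ y ∈ S, x * y ∈ S)
    (hM : ∀ x ∈ M, ∀ y ∈ M, x * y ∈ M) (hNo : NoPatC c S T N)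
    {Λ : Finset ℕ} (hΛ : Enough c S M Λ) {a b : K} (hTa : ∀ k, Linked c S M a k → k ∈ T)
    {Q : Set ℕ} (hQ : FH c (Oth S (Cls c S M a) (Cls c S M b)) (Cls c S M a) Q) {t : ℕ} (ht : t ∈ Cls c S M a)
    (htN : N < t) (hPS : PS (Ret Λ Q t)) :
    ∃ Q' l, Q' ⊆ Ret Λ Q t ∧ Free (Oth S (Cls c S M a) (Cls c S M b)) Q' ∧
      ∀ x ∈ Q', t * x ∈ Cls c S M b ∧ c (t * x) = l := by
  obtain ⟨hfree, hsub, l₀, hl₀⟩ := hQ
  set R := Oth S (Cls c S M a) (Cls c S M b) with hR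
  have h1 : PS {x | x ∈ Ret Λ Q t ∧ (∏ s ∈ Λ, s) * t + N < x} := PS_large hPS _
  have h2 : ∀ x, x ∈ Ret Λ Q t → (∏ s ∈ Λ, s) * t + N < x → t * x ∉ Cls c S M a := by
    intro x hx hx2
    have hxA : x ∈ Cls c S M a := hsub hx.1
    have h := prod_two (m := 1) (l := l₀) hM hNo hΛ (a := a) hTa (t := t) (y := x) (Q := Q)
      (fun y hy => by rw [one_mul]; exact ⟨(hsub hy).2.1, hl₀ y hy⟩) hx
      (by rw [one_mul]; exact ht) (by rw [one_mul]; exact hxA) (by rw [one_mul]; exact htN)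
      (by rw [one_mul]; omega) (by omega)
    rwa [one_mul, one_mul] at h
  have h3 : PS ({x | (x ∈ Ret Λ Q t ∧ (∏ s ∈ Λ, s) * t + N < x) ∧ t * x ∈ Cls c S M b} ∪
      {x | x ∈ Q ∧ t * x ∈ R}) := by
    refine h1.mono ?_
    rintro x ⟨hx1, hx2⟩
    by_cases hB : t * x ∈ Cls c S M b
    · exact Or.inl ⟨⟨hx1, hx2⟩, hB⟩
    · right
      have hxA : x ∈ Cls c S M a := hsub hx1.1
      exact ⟨hx1.1, Nat.mul_pos ht.1 hxA.1, hmul _ ht.2.1 _ hxA.2.1, h2 x hx1 hx2, hB⟩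
  rcases h3.union with h | h
  · obtain ⟨l, hl⟩ := PS_homog h (fun x => c (t * x))
    refine ⟨_, l, ?_, hfree.sub hl ?_, ?_⟩
    · intro x hx
      exact hx.1.1.1
    · intro x hx
      exact hx.1.1.1.1
    · intro x hx
      exact ⟨hx.1.2, hx.2⟩
  · exact absurd h (hfree.2 t ht.1)

theorem step_FH [Finite K] {N : ℕ} (hmul : ∀ x ∈ S, ∀ y ∈ S, x * y ∈ S)
    (hM : ∀ x ∈ M, ∀ y ∈ M, x * y ∈ M) (hNo : NoPatC c S T N)
    {Λ : Finset ℕ} (hΛ : Enough c S M Λ) {a b : K} (hTa : ∀ k, Linked c S M a k → k ∈ T)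
    {Q : Set ℕ} (hQ : FH c (Oth S (Cls c S M a) (Cls c S M b)) (Cls c S M a) Q) {t : ℕ} (ht : t ∈ Cls c S M a)
    (htN : N < t) (hPS : PS (Ret Λ Q t)) :
    ∃ Q', FH c (Oth S (Cls c S M a) (Cls c S M b)) (Cls c S M b) Q' := by
  obtain ⟨Q', l, _, h2, h3⟩ := step_core hmul hM hNo hΛ hTa hQ ht htN hPS
  refine ⟨_, h2.dil ht.1, ?_, l, ?_⟩
  · rintro n ⟨x, hx, rfl⟩
    exact (h3 x hx).1
  · rintro n ⟨x, hx, rfl⟩
    exact (h3 x hx).2

/-- The conclusion drawn from two factorisations of the same product. -/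
theorem clash {N : ℕ} (hmul : ∀ x ∈ S, ∀ y ∈ S, x * y ∈ S)
    (hM : ∀ x ∈ M, ∀ y ∈ M, x * y ∈ M) (hNo : NoPatC c S T N)
    {Λ : Finset ℕ} (hΛ : Enough c S M Λ) {a b : K} (hTa : ∀ k, Linked c S M a k → k ∈ T)
    (hTb : ∀ k, Linked c S M b k → k ∈ T) {l₀ l₁ : K} {P : Set ℕ} {z y : ℕ}
    (hz0 : 0 < z)
    (hfree : Free (Oth S (Cls c S M a) (Cls c S M b)) P)
    (hP0 : ∀ x ∈ P, x ∈ Cls c S M a ∧ c x = l₀) (hP1 : ∀ x ∈ P, z * x ∈ Cls c S M b ∧ c (z * x) = l₁)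
    (hzy : z * y ∈ Cls c S M b) (hzyN : N < z * y)
    (hPS : PS {x | x ∈ P ∧ x ∈ Ret Λ P y ∧ x ∈ Ret Λ P (z ^ 2 * y)}) :
    z * (z * y) ∉ Cls c S M a := by
  intro hcon
  set D := ∏ s ∈ Λ, s with hD
  set R := Oth S (Cls c S M a) (Cls c S M b) with hR
  have h1 := PS_large hPS (D * (z ^ 2 * y) + D * y + N)
  have hnot : ¬ PS {x | x ∈ P ∧ z * (z * y) * x ∈ R} := hfree.2 _ hcon.1
  apply hnot
  refine h1.mono ?_
  rintro x ⟨⟨hx, hx1, hx2⟩, hbig⟩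
  refine ⟨hx, ?_⟩
  have hxA := (hP0 x hx).1
  have hx0 : 0 < x := hxA.1
  have hb1 : D * y < x := by omega
  have hb2 : D * (z ^ 2 * y) < x := by omega
  have hxz : x ≤ z * x := Nat.le_mul_of_pos_left x hz0
  have f1 := prod_two (m := z) (l := l₁) hM hNo hΛ (a := b) hTb (t := y) (y := x) (Q := P)
    (fun u hu => ⟨(hP1 u hu).1.2.1, (hP1 u hu).2⟩) hx1 hzy (hP1 x hx).1 hzyN (by omega) hb1
  have e1 : z * y * (z * x) = z * (z * y) * x := by ring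
  rw [e1] at f1
  have e2 : z * (z * y) = z ^ 2 * y := by ring
  have hzzy : N < z * (z * y) := lt_of_lt_of_le hzyN (Nat.le_mul_of_pos_left _ hz0)
  have f2 := prod_two (m := 1) (l := l₀) hM hNo hΛ (a := a) hTa (t := z ^ 2 * y) (y := x) (Q := P)
    (fun u hu => by rw [one_mul]; exact ⟨(hP0 u hu).1.2.1, (hP0 u hu).2⟩) hx2
    (by rw [one_mul, ← e2]; exact hcon) (by rw [one_mul]; exact hxA)
    (by rw [one_mul, ← e2]; exact hzzy) (by rw [one_mul]; omega) hb2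
  rw [one_mul, one_mul, ← e2] at f2
  exact ⟨Nat.mul_pos hcon.1 hx0, hmul _ hcon.2.1 _ hxA.2.1, f2, f1⟩

theorem aux [Finite K] {N : ℕ} (hmul : ∀ x ∈ S, ∀ y ∈ S, x * y ∈ S)
    (hM : ∀ x ∈ M, ∀ y ∈ M, x * y ∈ M) (hNo : NoPatC c S T N)
    {Λ : Finset ℕ} (hΛ : Enough c S M Λ) {a b : K} (hTa : ∀ k, Linked c S M a k → k ∈ T)
    (hTb : ∀ k, Linked c S M b k → k ∈ T) {P : Set ℕ} (hP : Free (Oth S (Cls c S M a) (Cls c S M b)) P) (hPS : P ⊆ {n | 0 < n ∧ n ∈ S})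
    {p : Ultrafilter ℕ} (hp : p + p = p) (hpPS : ∀ C ∈ p, PS C)
    (hrest : ∀ m : ℕ, 0 < m → ∀ᶠ w in (p : Filter ℕ), m * w ∉ Oth S (Cls c S M a) (Cls c S M b))
    {k₀ : K} (hAp : ∀ᶠ n in (p : Filter ℕ), n ∈ Cls c S M a ∧ c n = k₀) : False := by
  classical
  set A := Cls c S M a with hA
  set B := Cls c S M b with hB
  set R := Oth S A B with hR
  have hgt : ∀ L : ℕ, ∀ᶠ n in (p : Filter ℕ), L < n := by
    intro L
    by_contra hcon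
    rw [← Ultrafilter.eventually_not] at hcon
    obtain ⟨x, hx, hx'⟩ := (hpPS _ hcon).exists_gt L
    exact hx' hx
  have hgood : ∀ᶠ z in (p : Filter ℕ), (z ∈ A ∧ c z = k₀) ∧ N < z ∧
      ∀ᶠ w in (p : Filter ℕ), z * w ∈ B := by
    have h0 : ∀ᶠ n in ((p + p : Ultrafilter ℕ) : Filter ℕ), n ∈ A ∧ c n = k₀ := by
      rw [hp]; exact hAp
    have h1 : ∀ᶠ z in (p : Filter ℕ), ∀ᶠ w in (p : Filter ℕ), z + w ∈ A ∧ c (z + w) = k₀ :=
      (Ultrafilter.eventually_add _ _ _).1 h0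
    filter_upwards [hAp, hgt N, h1] with z hzA hzN hzw
    refine ⟨hzA, hzN, ?_⟩
    filter_upwards [hzw, hAp, hgt z, hrest z hzA.1.1] with w hw1 hw2 hw3 hw4
    have hnA : z * w ∉ A :=
      prod_one hM hNo hTa hzA.1 hw2.1 hw1.1.2.1 (by rw [hw2.2, hzA.2]) (by rw [hw1.2, hzA.2])
        hzN (by omega) (by omega)
    by_contra hnB
    exact hw4 ⟨Nat.mul_pos hzA.1.1 hw2.1.1, hmul _ hzA.1.2.1 _ hw2.1.2.1, hnA, hnB⟩
  -- free homogeneous sets inside A and inside B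
  have hAB : (∃ Q, FH c R A Q) ∨ (∃ Q, FH c R B Q) := by
    have h1 : PS (({x | x ∈ P ∧ x ∈ A} ∪ {x | x ∈ P ∧ x ∈ B}) ∪ {x | x ∈ P ∧ 1 * x ∈ R}) := by
      refine hP.1.mono ?_
      intro x hx
      by_cases h1 : x ∈ A
      · exact Or.inl (Or.inl ⟨hx, h1⟩)
      · by_cases h2 : x ∈ B
        · exact Or.inl (Or.inr ⟨hx, h2⟩)
        · exact Or.inr ⟨hx, by rw [one_mul]; exact ⟨(hPS hx).1, (hPS hx).2, h1, h2⟩⟩
    rcases h1.union with h | h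
    · rcases h.union with h | h
      · exact Or.inl (exists_FH (hP.sub h (fun x hx => hx.1)) (fun x hx => hx.2))
      · exact Or.inr (exists_FH (hP.sub h (fun x hx => hx.1)) (fun x hx => hx.2))
    · exact absurd h (hP.2 1 one_pos)
  have hAex : (∃ Q, FH c R B Q) → ∃ Q, FH c R A Q := by
    rintro ⟨Q, hQ⟩
    obtain ⟨z, ⟨hzA, _⟩, hzN, hzB⟩ := hgood.exists
    have h1 := retE hΛ.1 hQ.1.1 hp z one_pos {1}
    obtain ⟨w, ⟨hw1, hw2⟩, hw3⟩ := ((h1.and hzB).and (hgt 0)).exists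
    have hzw : N < z * w := lt_of_lt_of_le hzN (Nat.le_mul_of_pos_right z hw3)
    have h2 : PS (Ret Λ Q (z * w)) := by
      refine hw1.mono ?_
      rintro x ⟨_, hx⟩
      have := hx 1 (Finset.mem_singleton_self 1)
      rwa [one_mul, Nat.div_one] at this
    have hQ' : FH c (Oth S (Cls c S M b) (Cls c S M a)) (Cls c S M b) Q := by
      rw [Oth_symm]; exact hQ
    obtain ⟨Q', hQ''⟩ := step_FH hmul hM hNo hΛ hTb hQ' hw2 hzw h2
    rw [Oth_symm] at hQ''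
    exact ⟨Q', hQ''⟩
  have hBex : (∃ Q, FH c R A Q) → ∃ Q, FH c R B Q := by
    rintro ⟨Q, hQ⟩
    have h1 := retE hΛ.1 hQ.1.1 hp 1 one_pos {1}
    obtain ⟨z, ⟨⟨hzA, _⟩, hzN, _⟩, hz⟩ := (hgood.and h1).exists
    refine step_FH hmul hM hNo hΛ hTa hQ hzA hzN (hz.mono ?_)
    rintro x ⟨_, hx⟩
    have := hx 1 (Finset.mem_singleton_self 1)
    rwa [one_mul, one_mul, Nat.div_one] at this
  obtain ⟨⟨P₁, hP₁⟩, ⟨Q₁, hQ₁⟩⟩ : (∃ Q, FH c R A Q) ∧ ∃ Q, FH c R B Q := by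
    rcases hAB with h | h
    · exact ⟨h, hBex h⟩
    · exact ⟨hAex h, h⟩
  -- the first multiplier
  obtain ⟨z, ⟨⟨hzA, hzk⟩, hzN, hzB⟩, hzr⟩ :=
    (hgood.and (retE hΛ.1 hP₁.1.1 hp 1 one_pos {1})).exists
  have hz0 : 0 < z := hzA.1
  have hzr' : PS (Ret Λ P₁ z) := by
    refine hzr.mono ?_
    rintro x ⟨_, hx⟩
    have := hx 1 (Finset.mem_singleton_self 1)
    rwa [one_mul, one_mul, Nat.div_one] at this
  obtain ⟨P0, l₁, hP0sub, hP0free, hP0z⟩ := step_core hmul hM hNo hΛ hTa hP₁ hzA hzN hzr'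
  obtain ⟨_, hP₁A, l₀, hl₀⟩ := hP₁
  have hP0A : ∀ x ∈ P0, x ∈ A ∧ c x = l₀ := fun x hx =>
    ⟨hP₁A (hP0sub hx).1, hl₀ x (hP0sub hx).1⟩
  -- the second multiplier
  have hret := retE hΛ.1 hQ₁.1.1 hp z one_pos {1}
  obtain ⟨z', ⟨⟨⟨⟨hz'A, _⟩, hz'N, hz'B⟩, hz'd⟩, hz'z⟩, hz'r⟩ :=
    (((hgood.and (idem_dvd hp hz0)).and hzB).and hret).exists
  obtain ⟨d, hd⟩ := hz'd
  set v := z * z' with hv
  have hz'0 : 0 < z' := hz'A.1
  have hv0 : 0 < v := Nat.mul_pos hz0 hz'0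
  have hvN : N < v := lt_of_lt_of_le hzN (Nat.le_mul_of_pos_right z hz'0)
  have hz'r' : PS (Ret Λ Q₁ v) := by
    refine hz'r.mono ?_
    rintro x ⟨_, hx⟩
    have := hx 1 (Finset.mem_singleton_self 1)
    rwa [one_mul, Nat.div_one] at this
  have hQ₁' : FH c (Oth S (Cls c S M b) (Cls c S M a)) (Cls c S M b) Q₁ := by
    rw [Oth_symm]; exact hQ₁
  obtain ⟨Q0, l₂, hQ0sub, hQ0free, hQ0v⟩ := step_core hmul hM hNo hΛ hTb hQ₁' hz'z hvN hz'r'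
  obtain ⟨_, hQ₁B, l₃, hl₃⟩ := hQ₁
  have hQ0B : ∀ x ∈ Q0, x ∈ B ∧ c x = l₃ := fun x hx =>
    ⟨hQ₁B (hQ0sub hx).1, hl₃ x (hQ0sub hx).1⟩
  have c1 : ∀ᶠ w in (p : Filter ℕ), v * w ∉ A := by
    have h1 := retE hΛ.1 hP0free.1 hp d one_pos {1, z ^ 2}
    filter_upwards [h1, hz'B, hgt 0] with w hw1 hw2 hw3
    rw [Nat.div_one] at hw1
    have e1 : z * (d * w) = z' * w := by rw [hd]; ring
    have h3 : N < z * (d * w) := by
      rw [e1]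
      exact lt_of_lt_of_le hz'N (Nat.le_mul_of_pos_right z' hw3)
    have h2 := clash (z := z) (y := d * w) hmul hM hNo hΛ hTa hTb hz0 hP0free hP0A hP0z
      (by rw [e1]; exact hw2) h3 (hw1.mono ?_)
    · have e2 : z * (z * (d * w)) = v * w := by rw [hv, hd]; ring
      rw [e2] at h2
      exact h2
    · rintro x ⟨hx, hx'⟩
      refine ⟨hx, ?_, ?_⟩
      · have := hx' 1 (Finset.mem_insert_self _ _)
        rwa [one_mul] at this
      · exact hx' (z ^ 2) (Finset.mem_insert_of_mem (Finset.mem_singleton_self _))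
  have c2 : ∀ᶠ w in (p : Filter ℕ), v * w ∉ B := by
    have h1 := retE hΛ.1 hQ0free.1 hp 1 hv0 {1, v ^ 2}
    filter_upwards [h1, hAp, idem_dvd hp hv0, hgt N] with w hw1 hw2 hw3 hw4
    obtain ⟨u, hu⟩ := hw3
    have hwu : w / v = u := by rw [hu]; exact Nat.mul_div_cancel_left u hv0
    rw [hwu, one_mul] at hw1
    have h2 := clash (a := b) (b := a) (z := v) (y := u) hmul hM hNo hΛ hTb hTa hv0 hQ0free hQ0B hQ0v
      (by rw [← hu]; exact hw2.1) (by rw [← hu]; exact hw4) (hw1.mono ?_)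
    · rw [← hu] at h2
      exact h2
    · rintro x ⟨hx, hx'⟩
      refine ⟨hx, ?_, ?_⟩
      · have := hx' 1 (Finset.mem_insert_self _ _)
        rwa [one_mul] at this
      · exact hx' (v ^ 2) (Finset.mem_insert_of_mem (Finset.mem_singleton_self _))
  obtain ⟨w, ⟨⟨hw1, hw2⟩, hw3⟩, hw4⟩ := (((c1.and c2).and (hrest v hv0)).and hAp).exists
  exact hw3 ⟨Nat.mul_pos hv0 hw4.1.1, hmul _ hz'z.2.1 _ hw4.1.2.1, hw1, hw2⟩

/-- the main theorem -/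
theorem main [Finite K] (c : ℕ → K) (S M : Set ℕ) (hmul : ∀ x ∈ S, ∀ y ∈ S, x * y ∈ S)
    (hM : ∀ x ∈ M, ∀ y ∈ M, x * y ∈ M)
    (F : Finset ℕ) (hF : ∀ s ∈ F, 0 < s) (hFS : ∀ n, 0 < n → ∃ s ∈ F, s * n ∈ S) (a b : K)
    (hT : Transient (Oth S (Cls c S M a) (Cls c S M b))) (N : ℕ) :
    ¬ NoPatC c S {k | Linked c S M a k ∨ Linked c S M b k} N := by
  classical
  intro hNo
  obtain ⟨Λ, hΛ⟩ := exists_enough c S M
  have hTa : ∀ k, Linked c S M a k → k ∈ {k | Linked c S M a k ∨ Linked c S M b k} :=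
    fun k hk => Or.inl hk
  have hTb : ∀ k, Linked c S M b k → k ∈ {k | Linked c S M a k ∨ Linked c S M b k} :=
    fun k hk => Or.inr hk
  set R := Oth S (Cls c S M a) (Cls c S M b) with hR
  obtain ⟨P, hP⟩ := exists_free hT
  -- dilate into S
  obtain ⟨P', hP', hP'S⟩ : ∃ P', Free R P' ∧ P' ⊆ {n | 0 < n ∧ n ∈ S} := by
    have h2 : PS (⋃ s ∈ F, {x | (x ∈ P ∧ 0 < x) ∧ s * x ∈ S}) := by
      refine (PS_large hP.1 0).mono ?_
      rintro x ⟨hx1, hx2⟩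
      obtain ⟨s, hs, hsx⟩ := hFS x hx2
      rw [Set.mem_iUnion₂]
      exact ⟨s, hs, ⟨hx1, hx2⟩, hsx⟩
    obtain ⟨s, hs, hs'⟩ := h2.biUnion
    refine ⟨_, (hP.sub hs' (fun x hx => hx.1.1)).dil (hF s hs), ?_⟩
    rintro n ⟨x, ⟨⟨_, hx⟩, hx'⟩, rfl⟩
    exact ⟨Nat.mul_pos (hF s hs) hx, hx'⟩
  obtain ⟨p₀, hp₀, hp₀PS, hrest₀⟩ := exists_idem_avoid hT
  -- dilate the ultrafilter
  have hgt0 : ∀ᶠ n in (p₀ : Filter ℕ), 0 < n := by
    by_contra hcon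
    rw [← Ultrafilter.eventually_not] at hcon
    obtain ⟨x, hx, hx'⟩ := (hp₀PS _ hcon).exists_gt 0
    exact hx' hx
  obtain ⟨s, hs, hsp⟩ : ∃ s ∈ F, ∀ᶠ n in (p₀ : Filter ℕ), s * n ∈ S := by
    have h2 : (⋃ s ∈ (F : Set ℕ), {n : ℕ | s * n ∈ S}) ∈ p₀ := by
      filter_upwards [hgt0] with n hn
      obtain ⟨s, hs, hsn⟩ := hFS n hn
      rw [Set.mem_iUnion₂]
      exact ⟨s, hs, hsn⟩
    rw [Ultrafilter.finite_biUnion_mem_iff F.finite_toSet] at h2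
    obtain ⟨s, hs, hs'⟩ := h2
    exact ⟨s, hs, hs'⟩
  have hs0 : 0 < s := hF s hs
  set p := p₀.map (fun n => s * n) with hpdef
  have hp : p + p = p := idem_dil hp₀ s
  have hpS : ∀ᶠ n in (p : Filter ℕ), 0 < n ∧ n ∈ S := by
    have : ∀ᶠ n in (p₀ : Filter ℕ), 0 < s * n ∧ s * n ∈ S := by
      filter_upwards [hgt0, hsp] with n h2 h3
      exact ⟨Nat.mul_pos hs0 h2, h3⟩
    exact this
  have hpPS : ∀ C ∈ p, PS C := by
    intro C hC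
    have h2 : {w | s * w ∈ C} ∈ p₀ := hC
    exact (hp₀PS _ h2).dilate hs0
  have hrest : ∀ m : ℕ, 0 < m → ∀ᶠ w in (p : Filter ℕ), m * w ∉ R := by
    intro m hm
    have h2 : ∀ᶠ w in (p₀ : Filter ℕ), m * (s * w) ∉ R := by
      filter_upwards [hrest₀ (m * s) (Nat.mul_pos hm hs0)] with w hw
      rw [← mul_assoc]
      exact hw
    exact h2
  -- the colour of the ultrafilter
  obtain ⟨k, hk⟩ : ∃ k, ∀ᶠ n in (p : Filter ℕ), c n = k := by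
    have h2 : (⋃ k ∈ (Set.univ : Set K), {n : ℕ | c n = k}) ∈ p := by
      have : (⋃ k ∈ (Set.univ : Set K), {n : ℕ | c n = k}) = Set.univ := by
        ext n; simp
      rw [this]
      exact Filter.univ_mem
    rw [Ultrafilter.finite_biUnion_mem_iff Set.finite_univ] at h2
    obtain ⟨k, _, hk⟩ := h2
    exact ⟨k, hk⟩
  by_cases hAp : ∀ᶠ n in (p : Filter ℕ), n ∈ Cls c S M a
  · exact aux hmul hM hNo hΛ hTa hTb hP' hP'S hp hpPS hrest (hAp.and hk)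
  by_cases hBp : ∀ᶠ n in (p : Filter ℕ), n ∈ Cls c S M b
  · rw [hR, Oth_symm] at hP' hrest
    exact aux hmul hM hNo hΛ hTb hTa hP' hP'S hp hpPS hrest (hBp.and hk)
  · rw [← Ultrafilter.eventually_not] at hAp hBp
    obtain ⟨w, ⟨⟨h2, h3⟩, h4⟩, h5⟩ := (((hAp.and hBp).and (hrest 1 one_pos)).and hpS).exists
    rw [one_mul] at h4
    exact h4 ⟨h5.1, h5.2, h2, h3⟩

theorem Transient_mono {X Y : Set ℕ} (h : X ⊆ Y) (hY : Transient Y) : Transient X := by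
  intro x hx
  obtain ⟨k, hk⟩ := hY x hx
  refine ⟨k, fun hcon => hk (hcon.mono ?_)⟩
  intro n hn j hj
  exact h (hn j hj)

theorem pattern_of_not {N : ℕ} (hmul : ∀ x ∈ S, ∀ y ∈ S, x * y ∈ S)
    (h : ¬ NoPatC c S T N) : ∃ x y, N < x ∧ x < y ∧ x ∈ S ∧ y ∈ S ∧ x + y ∈ S ∧ x * y ∈ S ∧
      c x ∈ T ∧ c y = c x ∧ c (x + y) = c x ∧ c (x * y) = c x := by
  unfold NoPatC at h
  push Not at h
  obtain ⟨x, y, h1, h2, h3, h4, h5, h6, hT, h7, h8, h9⟩ := h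
  rcases lt_or_gt_of_ne h3 with h | h
  · exact ⟨x, y, h1, h, h4, h5, h6, hmul _ h4 _ h5, hT, h7, h8, h9⟩
  · refine ⟨y, x, h2, h, h5, h4, by rw [add_comm]; exact h6, hmul _ h5 _ h4, ?_, h7.symm, ?_, ?_⟩
    · rw [h7]; exact hT
    · rw [add_comm, h8, h7]
    · rw [mul_comm, h9, h7]

end Pool.Agent.Y388.TO
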