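import Pool.Agent.W842.SP.MainT

/-!
# Recurrence of piecewise syndetic sets along idempotent ultrafilters, for finitely many multiples
-/

set_option autoImplicit false

namespace Pool.Agent.Y388.TO

open Combinatorics Hindman Filter Pool.Agent.W842.SP

attribute [local instance] Ultrafilter.add Ultrafilter.addSemigroup

theorem recurK {P : Set ℕ} (hP : PS P) (q : Ultrafilter ℕ) (hq : q + q = q) (k : Finset ℕ) :
    ∀ᶠ n in (q : Filter ℕ), PS {a | a ∈ P ∧ ∀ x ∈ k, a + x * n ∈ P} := by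
  classical
  by_contra hcon
  rw [← Ultrafilter.eventually_not] at hcon
  set E : Set ℕ := {n | ¬ PS {a | a ∈ P ∧ ∀ x ∈ k, a + x * n ∈ P}} with hE
  have hEq : E ∈ q := hcon
  obtain ⟨x, hx⟩ := exists_FS_of_large q hq E hEq
  obtain ⟨g, hg⟩ := hP
  set α := {y // y ∈ insert 0 k} with hα
  set K : ℕ := ∑ y ∈ insert 0 k, y with hK
  have hlett : ∀ y : α, (y : ℕ) ≤ K := by
    rintro ⟨y, hy⟩
    exact Finset.single_le_sum (f := fun y : ℕ => y) (fun _ _ => Nat.zero_le _) hy
  obtain ⟨ι, hι, hHJ⟩ := Line.exists_mono_in_high_dimension α (Fin (g + 1))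
  set e : ι → ℕ := fun i => (Fintype.equivFin ι i : ℕ) with he
  have heinj : Function.Injective e := fun i j hij =>
    (Fintype.equivFin ι).injective (Fin.ext hij)
  set X : ι → ℕ := fun i => x.get (e i) with hX
  set σ : (ι → α) → ℕ := fun w => ∑ i, (w i : ℕ) * X i with hσ
  set H : ℕ := ∑ i, K * X i with hH
  have hσH : ∀ w, σ w ≤ H := fun w =>
    Finset.sum_le_sum (fun i _ => Nat.mul_le_mul_right _ (hlett (w i)))
  set T : Set ℕ := {n | ∀ j ≤ H, ∃ t ≤ g, n + j + t ∈ P} with hT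
  have hTPS : PS T := by
    refine ⟨0, fun L => ?_⟩
    obtain ⟨a, ha⟩ := hg (L + H + 1)
    refine ⟨a, fun i hi => ⟨0, le_rfl, ?_⟩⟩
    intro j hj
    obtain ⟨t, ht, htP⟩ := ha (i + j) (by omega)
    refine ⟨t, ht, ?_⟩
    have e1 : a + i + 0 + j + t = a + (i + j) + t := by ring
    rw [e1]
    exact htP
  set idx : Finset (ℕ × Finset ι) :=
    (Finset.range (H + g + 1)) ×ˢ (Finset.univ.filter (fun J : Finset ι => J.Nonempty)) with hidx
  set Q : ℕ → Set ℕ := fun s => {a | a ∈ P ∧ ∀ x ∈ k, a + x * s ∈ P} with hQ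
  have zmem : (0 : ℕ) ∈ insert 0 k := Finset.mem_insert_self _ _
  have hcover : T ⊆ ⋃ c ∈ idx, {n | n + c.1 ∈ Q (∑ i ∈ c.2, X i)} := by
    intro n hn
    have hch : ∀ w : ι → α, ∃ t : Fin (g + 1), n + σ w + t ∈ P := by
      intro w
      obtain ⟨t, ht, htP⟩ := hn (σ w) (hσH w)
      exact ⟨⟨t, by omega⟩, htP⟩
    choose C hC using hch
    obtain ⟨l, t, hlt⟩ := hHJ C
    set J : Finset ι := Finset.univ.filter (fun i => l.idxFun i = none) with hJ
    have hJne : J.Nonempty := by
      obtain ⟨i, hi⟩ := l.proper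
      exact ⟨i, by rw [hJ, Finset.mem_filter]; exact ⟨Finset.mem_univ _, hi⟩⟩
    set b : ℕ := ∑ i ∈ Jᶜ, (((l.idxFun i).getD ⟨0, zmem⟩ : α) : ℕ) * X i with hb
    have hsum : ∀ j : α, σ (l j) = b + (j : ℕ) * ∑ i ∈ J, X i := by
      intro j
      rw [hσ]
      simp only
      rw [← Finset.sum_compl_add_sum J, Finset.mul_sum]
      congr 1
      · apply Finset.sum_congr rfl
        intro i hi
        rw [Finset.mem_compl, hJ, Finset.mem_filter] at hi
        have hi' : l.idxFun i ≠ none := fun h => hi ⟨Finset.mem_univ _, h⟩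
        obtain ⟨y, hy⟩ := Option.ne_none_iff_exists'.1 hi'
        rw [Line.apply_def]
        simp only [hy, Option.getD_some]
      · apply Finset.sum_congr rfl
        intro i hi
        rw [hJ, Finset.mem_filter] at hi
        rw [Line.apply_none l j i hi.2]
    have h0 := hC (l ⟨0, zmem⟩)
    rw [hlt ⟨0, zmem⟩, hsum ⟨0, zmem⟩] at h0
    have hbH : b ≤ H := by
      have := hσH (l ⟨0, zmem⟩)
      rw [hsum ⟨0, zmem⟩] at this
      omega
    rw [Set.mem_iUnion₂]
    refine ⟨(b + t, J), ?_, ?_⟩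
    · rw [hidx, Finset.mem_product, Finset.mem_range, Finset.mem_filter]
      have := t.isLt
      exact ⟨by simp only; omega, Finset.mem_univ _, hJne⟩
    · refine ⟨?_, ?_⟩
      · have e1 : n + (b + (t : ℕ)) = n + (b + 0 * ∑ i ∈ J, X i) + t := by ring
        simp only
        rw [e1]
        exact h0
      · intro y hy
        have hy' : y ∈ insert 0 k := Finset.mem_insert_of_mem hy
        have h2 := hC (l ⟨y, hy'⟩)
        rw [hlt ⟨y, hy'⟩, hsum ⟨y, hy'⟩] at h2
        have e1 : n + (b + (t : ℕ)) + y * ∑ i ∈ J, X i = n + (b + y * ∑ i ∈ J, X i) + t := by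
          ring
        simp only
        rw [e1]
        exact h2
  obtain ⟨c, hc, hcPS⟩ := (hTPS.mono hcover).biUnion
  rw [hidx, Finset.mem_product, Finset.mem_filter] at hc
  have hmem : ∑ i ∈ c.2, X i ∈ FS x := by
    have h1 := FS.finsetSum x (c.2.image e) (hc.2.2.image e)
    rw [Finset.sum_image (fun i _ j _ hij => heinj hij)] at h1
    exact h1
  exact hx hmem hcPS.shift

end Pool.Agent.Y388.TO
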